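import Mathlib
import Pool.Agent.Helper961.Aub.XClose
import Pool.Agent.Y350.QC.XRange

/-!
Project QC (owner helper203), job QC-XBASE: closeness of exact states.
Port of `Pool.Agent.Helper961.Aub.XClose`.
-/

set_option autoImplicit false

open Set Filter Topology

namespace Pool.Agent.Y203.QC

open Pool.Agent.Aub (mm lam Stk dt stp Sc S1 S2 Qx gT gt cT ct hC hX Dg Ty stg rho mu posn peel cE cF
  DD rb subTy subP subC sub broken Clamp Ix Zs stk reg mkz Wt f0 f1 f4 f6 g0 g1 M0 M4 M6 N1 tyj pj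
  Cell sT Dle vb tyn)

theorem X13q_unf (ty : Ty) (δ p : Fin 3) (l : List Cell) (i : Fin 3) (tr : Fin 5)
    (hb : (hd l).b = false) :
    rl ty δ p l i tr = if i = posn δ ty p then
      (hd l).val tr + rl (sT ty false) (-δ) (subP δ ty p) l.tail i tr / lam
      else rl (sT ty false) (-δ) (subP δ ty p) l.tail i tr := by
  cases l with
  | nil =>
    have h0 := X07q_zcval tr
    simp only [rl, hd, List.tail_nil]
    rw [h0]
    split_ifs <;> rfl
  | cons a tl =>
    simp only [hd] at hb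
    simp only [rl, hd, List.tail_cons, hb]

theorem X13q_e (p : Fin 3) (l : List Cell) (i : Fin 3) (tr : Fin 5) (hb : (hd l).b = false) :
    rl Ty.E 1 p l i tr = if i = p - 1 then (hd l).val tr + rl Ty.F 2 (p + 1) l.tail i tr / lam
      else rl Ty.F 2 (p + 1) l.tail i tr := by
  have h := X13q_unf Ty.E 1 p l i tr hb
  have h1 : posn 1 Ty.E p = p - 1 := by simp [posn]
  have h2 : subP 1 Ty.E p = p + 1 := by simp [subP]
  have h3 : sT Ty.E false = Ty.F := rfl
  have h4 : (-1 : Fin 3) = 2 := by decide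
  rw [h1, h2, h3, h4] at h
  exact h

theorem X13q_f (p : Fin 3) (l : List Cell) (i : Fin 3) (tr : Fin 5) (hb : (hd l).b = false) :
    rl Ty.F 2 p l i tr = if i = p then (hd l).val tr + rl Ty.E 1 p l.tail i tr / lam
      else rl Ty.E 1 p l.tail i tr := by
  have h := X13q_unf Ty.F 2 p l i tr hb
  have h1 : posn 2 Ty.F p = p := by simp [posn]
  have h2 : subP 2 Ty.F p = p := by simp [subP]
  have h3 : sT Ty.F false = Ty.E := rfl
  have h4 : (-2 : Fin 3) = 1 := by decide
  rw [h1, h2, h3, h4] at h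
  exact h

theorem X13q_lam : (0:ℝ) < lam := by unfold lam; norm_num

theorem X13q_six (l l' : List Cell)
    (b1 : (hd l).b = false) (b2 : (hd l.tail).b = false) (b3 : (hd l.tail.tail).b = false)
    (b4 : (hd l.tail.tail.tail).b = false) (b5 : (hd l.tail.tail.tail.tail).b = false)
    (b6 : (hd l.tail.tail.tail.tail.tail).b = false)
    (e1 : hd l' = hd l) (e2 : hd l'.tail = hd l.tail) (e3 : hd l'.tail.tail = hd l.tail.tail)
    (e4 : hd l'.tail.tail.tail = hd l.tail.tail.tail)
    (e5 : hd l'.tail.tail.tail.tail = hd l.tail.tail.tail.tail)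
    (e6 : hd l'.tail.tail.tail.tail.tail = hd l.tail.tail.tail.tail.tail) (i : Fin 3)
    (tr : Fin 5) :
    rl Ty.E 1 0 l i tr - rl Ty.E 1 0 l' i tr =
      (rl Ty.E 1 0 l.tail.tail.tail.tail.tail.tail i tr -
        rl Ty.E 1 0 l'.tail.tail.tail.tail.tail.tail i tr) / lam ^ 2 := by
  have hl := X13q_lam
  rw [X13q_e 0 l i tr b1, X13q_f _ l.tail i tr b2, X13q_e _ l.tail.tail i tr b3,
    X13q_f _ l.tail.tail.tail i tr b4, X13q_e _ l.tail.tail.tail.tail i tr b5,
    X13q_f _ l.tail.tail.tail.tail.tail i tr b6,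
    X13q_e 0 l' i tr (by rw [e1]; exact b1), X13q_f _ l'.tail i tr (by rw [e2]; exact b2),
    X13q_e _ l'.tail.tail i tr (by rw [e3]; exact b3),
    X13q_f _ l'.tail.tail.tail i tr (by rw [e4]; exact b4),
    X13q_e _ l'.tail.tail.tail.tail i tr (by rw [e5]; exact b5),
    X13q_f _ l'.tail.tail.tail.tail.tail i tr (by rw [e6]; exact b6), e1, e2, e3, e4, e5, e6]
  fin_cases i
  · simp only [show ((0:Fin 3) - 1) = 2 from by decide, show ((0:Fin 3) + 1) = 1 from by decide,
      show ((1:Fin 3) - 1) = 0 from by decide, show ((1:Fin 3) + 1) = 2 from by decide,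
      show ((2:Fin 3) - 1) = 1 from by decide, show ((2:Fin 3) + 1) = 0 from by decide]
    simp
    field_simp
    ring
  · simp only [show ((0:Fin 3) - 1) = 2 from by decide, show ((0:Fin 3) + 1) = 1 from by decide,
      show ((1:Fin 3) - 1) = 0 from by decide, show ((1:Fin 3) + 1) = 2 from by decide,
      show ((2:Fin 3) - 1) = 1 from by decide, show ((2:Fin 3) + 1) = 0 from by decide]
    simp
    field_simp
    ring
  · simp only [show ((0:Fin 3) - 1) = 2 from by decide, show ((0:Fin 3) + 1) = 1 from by decide,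
      show ((1:Fin 3) - 1) = 0 from by decide, show ((1:Fin 3) + 1) = 2 from by decide,
      show ((2:Fin 3) - 1) = 1 from by decide, show ((2:Fin 3) + 1) = 0 from by decide]
    simp
    field_simp
    ring

theorem X13q_Dle_tail (l : List Cell) (h : Dle l) : Dle l.tail :=
  fun a ha => h a (List.mem_of_mem_tail ha)

/-- TARGET -/
theorem rl_close2 (D : ℕ) (l l' : List Cell) (hD : Dle l) (hD' : Dle l')
    (hb : base (6 * D) l) (h : trunc (6 * D) l = trunc (6 * D) l')
    (i : Fin 3) (tr : Fin 5) :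
    |rl Ty.E 1 0 l i tr - rl Ty.E 1 0 l' i tr| ≤ (mm + 1) / lam ^ D := by
  induction D generalizing l l' with
  | zero =>
    have h1 := rl_range l hD Ty.E 1 0 i tr
    have h2 := rl_range l' hD' Ty.E 1 0 i tr
    rw [pow_zero, div_one, abs_le]
    constructor <;> linarith [h1.1, h1.2.1, h2.1, h2.2.1]
  | succ D ih =>
    have h6 : 6 * (D + 1) = 6 * D + 1 + 1 + 1 + 1 + 1 + 1 := by ring
    rw [h6] at hb h
    simp only [base] at hb
    obtain ⟨b1, b2, b3, b4, b5, b6, hb⟩ := hb
    simp only [trunc, List.cons.injEq] at h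
    obtain ⟨e1, e2, e3, e4, e5, e6, h⟩ := h
    rw [X13q_six l l' b1 b2 b3 b4 b5 b6 e1.symm e2.symm e3.symm e4.symm e5.symm e6.symm i tr]
    have h := ih l.tail.tail.tail.tail.tail.tail l'.tail.tail.tail.tail.tail.tail
      (X13q_Dle_tail _ (X13q_Dle_tail _ (X13q_Dle_tail _ (X13q_Dle_tail _ (X13q_Dle_tail _
        (X13q_Dle_tail _ hD))))))
      (X13q_Dle_tail _ (X13q_Dle_tail _ (X13q_Dle_tail _ (X13q_Dle_tail _ (X13q_Dle_tail _
        (X13q_Dle_tail _ hD')))))) hb h
    have hl := X13q_lam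
    have hl1 : (1:ℝ) ≤ lam := by unfold lam; norm_num
    rw [abs_div, abs_of_pos (pow_pos hl 2), div_le_iff₀ (pow_pos hl 2)]
    refine le_trans h ?_
    have hm : (0:ℝ) ≤ (mm:ℝ) + 1 := by positivity
    have : ((mm:ℝ) + 1) / lam ^ (D + 1) * lam ^ 2 = ((mm:ℝ) + 1) / lam ^ D * lam := by
      field_simp
      ring
    rw [this]
    exact le_mul_of_one_le_right (by positivity) hl1

end Pool.Agent.Y203.QC
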