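import Mathlib
import Pool.Agent.Helper961.Aub.XBase
import Pool.Agent.Y203.QC.Sym

/-!
Project QC (owner helper203), job QC-XBASE: the dynamics of the bits `b`.
Port of `Pool.Agent.Helper961.Aub.XBase`.
-/

set_option autoImplicit false

open Set Filter Topology

namespace Pool.Agent.Y203.QC

open Pool.Agent.Aub (mm lam Stk dt stp Sc S1 S2 Qx gT gt cT ct hC hX Dg Ty stg rho mu posn peel cE cF
  DD rb subTy subP subC sub broken Clamp Ix Zs stk reg mkz Wt f0 f1 f4 f6 g0 g1 M0 M4 M6 N1 tyj pj
  Cell sT Dle vb tyn X09_bst X09_brun X09_period_mul)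

/-- first `N` bits -/
def X09q_bv : ℕ → List Cell → List Bool
  | 0, _ => []
  | N + 1, l => (hd l).b :: X09q_bv N l.tail

theorem X09q_bv_setD (N x : ℕ) (l : List Cell) : X09q_bv N (setD x l) = X09q_bv N l := by
  cases N with
  | zero => rfl
  | succ N =>
    cases l with
    | nil => rfl
    | cons a tl => rfl

theorem X09q_bv_upd (N : ℕ) (a : Cell) (l : List Cell) : X09q_bv N (upd a l) = X09q_bv N l := by
  unfold upd
  split_ifs
  · exact X09q_bv_setD _ _ _
  · exact X09q_bv_setD _ _ _
  · rfl

theorem X09q_bv_st (N : ℕ) : ∀ (ty : Ty) (r : Bool) (l : List Cell),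
    X09q_bv N (st ty r l) = X09_bst ty (X09q_bv N l) := by
  induction N with
  | zero => intro ty r l; cases ty <;> rfl
  | succ N ih =>
    intro ty r l
    cases ty with
    | E =>
      cases l with
      | nil => rfl
      | cons a tl =>
        show (!a.b) :: X09q_bv N (upd a tl) = (!a.b) :: X09q_bv N tl
        rw [X09q_bv_upd]
    | F =>
      cases l with
      | nil =>
        have h := ih Ty.E false []
        show false :: X09q_bv N (st Ty.E false []) = false :: X09_bst Ty.E (X09q_bv N [])
        rw [h]
      | cons a tl =>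
        show a.b :: X09q_bv N (if a.b then stF tl else stE false tl) =
          a.b :: X09_bst (sT Ty.F a.b) (X09q_bv N tl)
        cases hb : a.b with
        | true =>
          have h := ih Ty.F false tl
          have h' : X09q_bv N (stF tl) = X09_bst Ty.F (X09q_bv N tl) := h
          simp only [if_true, h']
          rfl
        | false =>
          have h := ih Ty.E false tl
          have h' : X09q_bv N (stE false tl) = X09_bst Ty.E (X09q_bv N tl) := h
          simp only [Bool.false_eq_true, if_false, h']
          rfl

theorem X09q_bv_run (N : ℕ) : ∀ (n : ℕ) (r : ℕ → Bool) (ty : Ty) (l : List Cell),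
    X09q_bv N (run n r ty l) = X09_brun n ty (X09q_bv N l) := by
  intro n
  induction n with
  | zero => intro r ty l; rfl
  | succ n ih =>
    intro r ty l
    show X09q_bv N (run n (fun k => r (k + 1)) ty.other (st ty (r 0) l)) =
      X09_brun n ty.other (X09_bst ty (X09q_bv N l))
    rw [ih, X09q_bv_st]

theorem X09q_base_iff (N : ℕ) : ∀ l : List Cell,
    base N l ↔ X09q_bv N l = List.replicate N false := by
  induction N with
  | zero => intro l; simp [base, X09q_bv]
  | succ N ih =>
    intro l
    simp [base, X09q_bv, List.replicate_succ, ih]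

/-- TARGET -/
theorem run_base (N : ℕ) : ∀ (r : ℕ → Bool) (ty : Ty) (l : List Cell) (k : ℕ), base N l →
    base N (run (2 ^ (N + 1) * k) r ty l) := by
  intro r ty l k h
  rw [X09q_base_iff] at h ⊢
  rw [X09q_bv_run, h]
  have := X09_period_mul (List.replicate N false) ty k
  rwa [List.length_replicate] at this

end Pool.Agent.Y203.QC
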