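import Mathlib
import Pool.Agent.Helper981.QA.P17
import Pool.Agent.Y203.QC.Phys
import Pool.Agent.Y350.QC.XRange

/-!
Project QC (owner helper203), job QC-Q17: the potential on exact states.
Port of `Pool.Agent.Helper981.QA.P17`.
-/

set_option autoImplicit false

open Set Filter Topology MeasureTheory

namespace Pool.Agent.Y203.QC

open Pool.Agent.Aub (mm lam Stk dt stp Sc S1 S2 Qx gT gt cT ct hC hX Dg Ty stg rho mu posn peel cE cF
  DD rb subTy subP subC sub broken Clamp Ix Zs stk reg mkz Wt f0 f1 f4 f6 g0 g1 M0 M4 M6 N1 tyj pj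
  Cell sT Dle vb tyn P17_mm P17_vbf P17_vbt P17_hC P17_hX P17_rho P17_mu P17_Dg P17_valk)

set_option linter.unusedSimpArgs false

theorem Q17_low (tl : List Cell) (hDt : Dle tl) (δ p : Fin 3) :
    ((hd tl).c = true → 3/4 ≤ rl Ty.F δ p tl p 1) ∧
    ((hd tl).c = false → rl Ty.F δ p tl p 1 ≤ 1/4) := by
  cases tl with
  | nil =>
    constructor
    · intro h
      simp [hd, zc] at h
    · intro _
      show (0 : ℝ) ≤ 1/4
      norm_num
  | cons c tl' =>
    have hDt' : Dle tl' := fun b hb => hDt b (List.mem_cons_of_mem _ hb)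
    have e : rl Ty.F δ p (c :: tl') p 1 =
        vb c.c + rl (sT Ty.F c.b) (-δ) (subP δ Ty.F p) tl' p 1 / lam := by
      show (if p = posn δ Ty.F p then _ else _) = _
      rw [if_pos (by simp [posn])]
      rfl
    have h5 := rl_range tl' hDt' (sT Ty.F c.b) (-δ) (subP δ Ty.F p) p 1
    have h6 := h5.2.2 (Or.inr rfl)
    have hlam : (lam : ℝ) = 131072 := rfl
    have h7 : 0 ≤ rl (sT Ty.F c.b) (-δ) (subP δ Ty.F p) tl' p 1 / lam := by
      rw [hlam]; exact div_nonneg h5.1 (by norm_num)
    have h8 : rl (sT Ty.F c.b) (-δ) (subP δ Ty.F p) tl' p 1 / lam ≤ 1/4 := by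
      rw [hlam, div_le_iff₀ (by norm_num)]; linarith
    constructor
    · intro h
      have h' : c.c = true := h
      rw [e, h', P17_vbt]
      linarith
    · intro h
      have h' : c.c = false := h
      rw [e, h', P17_vbf]
      linarith

/-- one step of the potential on exact states -/
theorem Q17_step (N : ℕ) (post : Bool) (δ : Fin 3) (ty : Ty) (p : Fin 3) (a : Cell)
    (tl : List Cell) (hDa : ∀ k, a.D k ≤ mm) (hDt : Dle tl)
    (hval : ty = Ty.F → a.c = (a.b && !(hd tl).c)) :
    UU (N + 1) post δ ty p (rl ty δ p (a :: tl)) =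
      (Vz (fun k => (a.D k : ℤ)) + UU N post (-δ) (sT ty a.b) (subP δ ty p)
        (rl (sT ty a.b) (-δ) (subP δ ty p) tl)) / MM := by
  obtain ⟨q, hq⟩ : ∃ q, q = posn δ ty p := ⟨_, rfl⟩
  obtain ⟨x, hx⟩ : ∃ x, x = rl (sT ty a.b) (-δ) (subP δ ty p) tl := ⟨_, rfl⟩
  obtain ⟨z, hz⟩ : ∃ z, z = rl ty δ p (a :: tl) := ⟨_, rfl⟩
  have hxr : ∀ i tr, 0 ≤ x i tr ∧ x i tr ≤ mm + 1/16 ∧ (tr = 0 ∨ tr = 1 → x i tr ≤ 1 + 1/16) := by
    intro i tr
    rw [hx]
    exact rl_range tl hDt _ _ _ i tr
  have hzq : ∀ tr, z q tr = a.val tr + x q tr / lam := by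
    intro tr
    rw [hz, hx]
    show (if q = posn δ ty p then _ else _) = _
    rw [if_pos hq]
  have hzi : ∀ i, i ≠ q → ∀ tr, z i tr = x i tr := by
    intro i hi tr
    rw [hz, hx]
    show (if i = posn δ ty p then _ else _) = _
    rw [if_neg (by rw [← hq]; exact hi)]
  have hlam : (lam : ℝ) = 131072 := rfl
  have he : ∀ tr, 0 ≤ x q tr / lam ∧ x q tr / lam ≤ 1/16 := by
    intro tr
    obtain ⟨h1, h2, -⟩ := hxr q tr
    rw [P17_mm] at h2
    rw [hlam]
    constructor
    · positivity
    · rw [div_le_iff₀ (by norm_num)]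
      linarith
  have hle : ∀ tr, lam * (x q tr / lam) = x q tr := by
    intro tr
    rw [hlam]
    field_simp
  obtain ⟨hr1, hr2⟩ := P17_rho ty post
  obtain ⟨hm1, hm2⟩ := P17_mu ty post
  have h0 := he 0
  have h1 := he 1
  have hz0 : z q 0 = vb a.b + x q 0 / lam := hzq 0
  have hz1 : z q 1 = vb a.c + x q 1 / lam := hzq 1
  -- the bit
  have hrb : rb ty post q z = some (vb a.b) := by
    unfold rb
    cases hb : a.b
    · have e1 : z q 0 ≤ rho ty post := by
        rw [hz0, hb, P17_vbf]; linarith
      rw [if_pos e1, P17_vbf]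
    · have e1 : ¬ z q 0 ≤ rho ty post := by
        rw [hz0, hb, P17_vbt]; linarith
      have e2 : 1 - rho ty post ≤ z q 0 := by
        rw [hz0, hb, P17_vbt]; linarith
      rw [if_neg e1, if_pos e2, P17_vbt]
  -- the digits
  have hDD : DD ty post q z = fun k => (a.D k : ℤ) := by
    funext k
    unfold DD
    rw [hzq, P17_valk]
    exact P17_Dg (hDa k) hm1 hm2 (he _).1 (he _).2
  -- not broken
  have hbr : ¬ broken ty post q (vb a.b) z := by
    rintro ⟨hty, hb, hc⟩
    apply hc
    have hab : a.b = false := by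
      cases hb' : a.b
      · rfl
      · rw [hb'] at hb
        simp [vb] at hb
    have hac : a.c = false := by
      rw [hval hty, hab]
      rfl
    rw [hz1, hac]
    simp only [vb]
    simp
    linarith
  have hsty : subTy ty (vb a.b) = sT ty a.b := by
    cases ty <;> cases a.b <;> simp [subTy, sT, vb]
  -- value of c
  have hxc := hxr q 1
  have hx17 : x q 1 ≤ 1 + 1/16 := hxc.2.2 (Or.inr rfl)
  have hhC : a.c = false → hC (lam * hC (z q 1)) = x q 1 := by
    intro hac
    rw [hz1, hac]
    have e1 : vb false + x q 1 / lam = x q 1 / lam := by simp [vb]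
    rw [e1, P17_hC (t := x q 1 / lam) (by linarith) (by linarith), hle,
      P17_hC (t := x q 1) (by linarith) (by linarith)]
  have hhC' : a.c = true → hC (lam * (hC (z q 1) - 1)) = x q 1 := by
    intro hac
    rw [hz1, hac]
    have e1 : vb true + x q 1 / lam = 1 + x q 1 / lam := by simp [vb]
    rw [e1, P17_hC (t := 1 + x q 1 / lam) (by linarith) (by linarith), add_sub_cancel_left, hle,
      P17_hC (t := x q 1) (by linarith) (by linarith)]
  have hsubC : subC ty post (vb a.b) q z = x q 1 := by
    unfold subC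
    split_ifs with hF
    · obtain ⟨hty, hb⟩ := hF
      have hab : a.b = true := by
        cases hb' : a.b
        · rw [hb'] at hb
          simp [vb] at hb
        · rfl
      have hxq : x q 1 = rl Ty.F (-δ) p tl p 1 := by
        rw [hx, hq, hty, hab]
        simp [posn, subP, sT]
      obtain ⟨low1, low2⟩ := Q17_low tl hDt (-δ) p
      rw [← hxq] at low1 low2
      have hac : a.c = !(hd tl).c := by
        rw [hval hty, hab]
        rfl
      unfold cF
      cases hc : a.c
      · have hh : (hd tl).c = true := by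
          rw [hc] at hac
          cases h : (hd tl).c
          · rw [h] at hac; simp at hac
          · rfl
        have hx34 : 3/4 ≤ x q 1 := low1 hh
        have hle1 : z q 1 ≤ rho ty post := by
          rw [hz1, hc]; simp only [P17_vbf, P17_vbt]; linarith
        rw [if_pos ⟨hle1, by rw [hhC hc]; exact hx34⟩, hhC hc]
      · have hh : (hd tl).c = false := by
          rw [hc] at hac
          cases h : (hd tl).c
          · rfl
          · rw [h] at hac; simp at hac
        have hx14 : x q 1 ≤ 1/4 := low2 hh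
        have hgt : ¬ z q 1 ≤ rho ty post := by
          rw [hz1, hc]; simp only [P17_vbf, P17_vbt]; linarith
        have hge : 1 - rho ty post ≤ z q 1 := by
          rw [hz1, hc]; simp only [P17_vbf, P17_vbt]; linarith
        rw [if_neg (fun h => hgt h.1), if_pos ⟨hge, by rw [hhC' hc]; exact hx14⟩, hhC' hc]
    · unfold cE
      cases hc : a.c
      · have hle1 : z q 1 ≤ rho ty post := by
          rw [hz1, hc]; simp only [P17_vbf, P17_vbt]; linarith
        rw [if_pos hle1, hhC hc]
      · have hgt : ¬ z q 1 ≤ rho ty post := by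
          rw [hz1, hc]; simp only [P17_vbf, P17_vbt]; linarith
        have hge : 1 - rho ty post ≤ z q 1 := by
          rw [hz1, hc]; simp only [P17_vbf, P17_vbt]; linarith
        rw [if_neg hgt, if_pos hge, hhC' hc]
  -- the sub state
  have hsub : sub δ ty post p (vb a.b) z = x := by
    unfold sub peel
    rw [← hq]
    funext i tr
    by_cases hi : i = q
    · rw [if_pos hi, hi]
      have hdig : ∀ k : Fin 3, hX (lam * (hX (z q (dt k)) - (DD ty post q z k : ℝ))) = x q (dt k) := by
        intro k
        have e1 := he (dt k)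
        have e2 := hxr q (dt k)
        have e3 : (a.D k : ℝ) ≤ mm := by exact_mod_cast hDa k
        have e4 : (0 : ℝ) ≤ a.D k := Nat.cast_nonneg _
        have e5 := e2.2.1
        rw [hDD, hzq, P17_valk, P17_hX (t := (a.D k : ℝ) + x q (dt k) / lam) (by linarith)
          (by linarith)]
        push_cast
        rw [add_sub_cancel_left, hle, P17_hX (t := x q (dt k)) (by linarith) (by linarith)]
      fin_cases tr
      · show hC (lam * (hC (z q 0) - vb a.b)) = x q 0
        have e2 := hxr q 0
        have e3 := e2.2.2 (Or.inl rfl)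
        have e4 : 0 ≤ vb a.b ∧ vb a.b ≤ 1 := by
          cases a.b <;> simp [vb]
        rw [hz0, P17_hC (t := vb a.b + x q 0 / lam) (by linarith) (by linarith),
          add_sub_cancel_left, hle, P17_hC (t := x q 0) (by linarith) (by linarith)]
      · exact hsubC
      · exact hdig 0
      · exact hdig 1
      · exact hdig 2
    · rw [if_neg hi]
      have g0 := hxr i 0
      have g1 := hxr i 1
      have g2 := hxr i 2
      have g3 := hxr i 3
      have g4 := hxr i 4
      have g0' := g0.2.2 (Or.inl rfl)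
      have g1' := g1.2.2 (Or.inr rfl)
      fin_cases tr
      · show hC (z i 0) = x i 0
        rw [hzi i hi, P17_hC (by linarith) (by linarith)]
      · show hC (z i 1) = x i 1
        rw [hzi i hi, P17_hC (by linarith) (by linarith)]
      · show hX (z i 2) = x i 2
        rw [hzi i hi, P17_hX (by linarith) (by linarith)]
      · show hX (z i 3) = x i 3
        rw [hzi i hi, P17_hX (by linarith) (by linarith)]
      · show hX (z i 4) = x i 4
        rw [hzi i hi, P17_hX (by linarith) (by linarith)]
  rw [← hz, ← hx]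
  conv_lhs => unfold UU
  rw [← hq, hrb]
  simp only
  rw [if_neg hbr, hDD, hsty, hsub]

theorem Q17_zc (k : Fin 3) : zc.D k ≤ mm := by
  show 1 ≤ mm
  unfold mm
  norm_num

/-- TARGET -/
theorem UU_exact (N : ℕ) : ∀ (post : Bool) (δ : Fin 3), δ ≠ 0 → ∀ (ty : Ty) (p : Fin 3)
    (l : List Cell), Dle l → Val ty l → UU N post δ ty p (rl ty δ p l) = vN N l := by
  induction N with
  | zero =>
    intro post δ _ ty p l _ _
    unfold UU vN
    rfl
  | succ N ih =>
    intro post δ hδ ty p l hD hV
    have hδ' : -δ ≠ 0 := neg_ne_zero.2 hδ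
    cases l with
    | nil =>
      rw [← rl_nil, Q17_step N post δ ty p zc [] Q17_zc hD
        (fun _ => rfl), ih post (-δ) hδ' _ _ [] hD (by unfold Val; trivial)]
      rfl
    | cons a tl =>
      have hDa : ∀ k, a.D k ≤ mm := hD a List.mem_cons_self
      have hDt : Dle tl := fun b hb => hD b (List.mem_cons_of_mem _ hb)
      rw [Val] at hV
      rw [Q17_step N post δ ty p a tl hDa hDt hV.1,
        ih post (-δ) hδ' _ _ tl hDt hV.2]
      rfl

end Pool.Agent.Y203.QC
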