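import Mathlib
import Pool.Agent.Y203.QC.Base
import Pool.Agent.Y448.QC.RUU
import Pool.Agent.Y448.QC.RComp
import Pool.Agent.Y448.QC.RMod
import Pool.Agent.Y290.QC.REtick
import Pool.Agent.Y290.QC.RFtick

set_option autoImplicit false

open Set Filter Topology

namespace Pool.Agent.Y203.QC

open Pool.Agent.Aub (mm lam Stk dt stp Sc S1 S2 Qx gT gt cT ct hC hX Dg Ty stg rho mu posn peel cE cF
  DD rb subTy subP subC sub broken)

/-- extension property of a state right after a tick (or at the start) -/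
def R06_TrP (δ : Fin 3) (ty0 : Ty) (p0 : Fin 3) (z0 : Stk) (ty : Ty) (p : Fin 3) (ζ : Stk)
    (e cr : ℝ) (d n : ℕ) : Prop :=
  ∀ (ν cr1 : ℝ) (f : Fl) (z : Stk), Md ty p ν cr1 f ζ z →
    Tr δ ty0 p0 z0 ty p z e ν (cr + cr1) (d + f.deb) n

theorem R06_TrP_start (δ : Fin 3) (ty0 : Ty) (p0 : Fin 3) (z0 : Stk) :
    R06_TrP δ ty0 p0 z0 ty0 p0 z0 0 0 0 0 := by
  intro ν cr1 f z h
  rw [zero_add, zero_add]
  exact Tr.base ν cr1 f z h

theorem R06_TrP_tick {δ : Fin 3} {ty0 : Ty} {p0 : Fin 3} {z0 : Stk} {ty : Ty} {p : Fin 3} {z z1 : Stk}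
    {e ν cr : ℝ} {d n : ℕ} (h : Tr δ ty0 p0 z0 ty p z e ν cr d n) (h1 : TickRel δ ty p z z1) :
    R06_TrP δ ty0 p0 z0 ty.other (p + δ) z1 (e + ν ^ 2) cr d (n + 1) := by
  intro ν' cr' f z2 h2
  exact Tr.step ty p z e ν cr d n h z1 z2 h1 ν' cr' f h2

theorem R06_Md_cr {ty : Ty} {p : Fin 3} {ν cr : ℝ} {f : Fl} {z z' : Stk}
    (h : Md ty p ν cr f z z') : 0 ≤ ν ∧ 0 ≤ cr := by
  obtain ⟨h0, -, -, -, pd, hpd, hs, -⟩ := h
  refine ⟨h0, le_trans ?_ hs⟩
  have h1 : 0 ≤ ∑ i, ∑ k, pd i k :=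
    Finset.sum_nonneg fun i _ => Finset.sum_nonneg fun k _ => hpd i k
  have h2 : (0:ℝ) ≤ f.cre := Nat.cast_nonneg _
  linarith

theorem R06_deb_le (f : Fl) : (f.deb : ℝ) ≤ 1 := by
  cases f <;> simp [Fl.deb]

theorem R06_n_or (f : Fl) : Fl.n.or f = f := rfl

theorem R06_or_n (f : Fl) : f.or Fl.n = f := by
  cases f <;> rfl

theorem R06_Tr_basic {δ : Fin 3} {ty0 : Ty} {p0 : Fin 3} {z0 : Stk} {ty : Ty} {p : Fin 3} {z : Stk}
    {e ν cr : ℝ} {d n : ℕ} (h : Tr δ ty0 p0 z0 ty p z e ν cr d n) :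
    0 ≤ e ∧ 0 ≤ cr ∧ (d : ℝ) ≤ n + 1 := by
  induction h with
  | base ν cr f z h =>
    refine ⟨le_rfl, (R06_Md_cr h).2, ?_⟩
    have := R06_deb_le f
    push_cast
    linarith
  | step ty p z e ν cr d n h z1 z2 h1 ν' cr' f h2 ih =>
    obtain ⟨a1, a2, a3⟩ := ih
    refine ⟨by positivity, by have := (R06_Md_cr h2).2; linarith, ?_⟩
    have := R06_deb_le f
    push_cast
    linarith

theorem R06_MM_pos : (0:ℝ) < MM := by unfold MM; norm_num

theorem R06_UU_some {N : ℕ} {post : Bool} {δ : Fin 3} {ty : Ty} {p : Fin 3} {z : Stk} {β : ℝ}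
    (h : rb ty post (posn δ ty p) z = some β) (hb : ¬ broken ty post (posn δ ty p) β z) :
    UU (N + 1) post δ ty p z = (Vz (DD ty post (posn δ ty p) z) +
      UU N post (-δ) (subTy ty β) (subP δ ty p) (sub δ ty post p β z)) / MM := by
  rw [UU, h]
  simp only
  rw [if_neg hb]

theorem R06_UU_broken {N : ℕ} {post : Bool} {δ : Fin 3} {ty : Ty} {p : Fin 3} {z : Stk} {β : ℝ}
    (h : rb ty post (posn δ ty p) z = some β) (hb : broken ty post (posn δ ty p) β z) :
    UU (N + 1) post δ ty p z = (Vz (DD ty post (posn δ ty p) z) + 2) / MM := by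
  rw [UU, h]
  simp only
  rw [if_pos hb]

theorem R06_UU_le_some {N : ℕ} {post : Bool} {δ : Fin 3} {ty : Ty} {p : Fin 3} {z : Stk} {β : ℝ}
    (h : rb ty post (posn δ ty p) z = some β) :
    UU (N + 1) post δ ty p z ≤ (Vz (DD ty post (posn δ ty p) z) + 2) / MM := by
  by_cases hb : broken ty post (posn δ ty p) β z
  · rw [R06_UU_broken h hb]
  · rw [R06_UU_some h hb]
    have := UU_le N post (-δ) (subTy ty β) (subP δ ty p) (sub δ ty post p β z)
    have hM := R06_MM_pos
    gcongr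

theorem R06_UU_none {N : ℕ} {post : Bool} {δ : Fin 3} {ty : Ty} {p : Fin 3} {z : Stk}
    (h : rb ty post (posn δ ty p) z = none) : UU (N + 1) post δ ty p z = 2 := by
  rw [UU, h]

theorem R06_nodebit {δ : Fin 3} {ty : Ty} {p : Fin 3} {ν cr : ℝ} {f : Fl} {z z' : Stk}
    (h : Md ty p ν cr f z z') (hν : ν < 1/32) (hn : rb ty false (posn δ ty p) z = none) :
    f.deb = 0 := by
  obtain ⟨-, -, -, h4, -⟩ := h
  by_cases hf : f = Fl.n
  · rw [hf]; rfl
  · exfalso
    obtain ⟨h5, h6⟩ := h4 hf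
    subst h5
    have hr : rho Ty.F false = 5/32 := by
      unfold rho stg; norm_num
    unfold rb posn at hn
    rw [hr] at hn
    simp only [if_true] at hn
    rcases h6 with h6 | h6
    · rw [if_pos (by linarith)] at hn
      exact absurd hn (by simp)
    · by_cases h7 : z p 0 ≤ 5/32
      · rw [if_pos h7] at hn
        exact absurd hn (by simp)
      · rw [if_neg h7, if_pos (by linarith)] at hn
        exact absurd hn (by simp)

/-- the main alternative of the invariant -/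
def R06_b (N : ℕ) (δ : Fin 3) (R0 : ℝ) (ty : Ty) (p : Fin 3) (z : Stk) (e ν cr : ℝ) (d n : ℕ) : Prop :=
  ∃ (β : ℝ) (tyr : Ty) (pr : Fin 3) (zr : Stk) (βr Er crr : ℝ) (dr nr : ℕ) (e' ν' cr' : ℝ) (d' n' : ℕ),
    rb ty true (posn δ ty p) z = some β ∧ ¬ broken ty true (posn δ ty p) β z ∧
    rb tyr false (posn δ tyr pr) zr = some βr ∧ ¬ broken tyr false (posn δ tyr pr) βr zr ∧
    UU (N + 1) false δ tyr pr zr + dr ≤ R0 + 3072 * Er + crr + nr / MM ^ (N + 1) ∧
    n' + nr ≤ n ∧
    Tr (-δ) (subTy tyr βr) (subP δ tyr pr) (sub δ tyr false pr βr zr)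
      (subTy ty β) (subP δ ty p) (sub δ ty true p β z) e' ν' cr' d' n' ∧
    Vz (DD ty true (posn δ ty p) z) + MM * ((d : ℝ) - dr) + cr'
      ≤ Vz (DD tyr false (posn δ tyr pr) zr) + MM * (cr - crr) + d' ∧
    (ty = Ty.F → e' + ν' ^ 2 ≤ 2 * lam ^ 2 * (e + ν ^ 2 - Er)) ∧
    (ty = Ty.E → e' + 2 * ν' ^ 2 ≤ 2 * lam ^ 2 * (e + ν ^ 2 - Er) ∧
      ∃ (ζ : Stk) (cr0 crl : ℝ), cr' = cr0 + crl ∧
        R06_TrP (-δ) (subTy tyr βr) (subP δ tyr pr) (sub δ tyr false pr βr zr)
          (subTy ty β) (subP δ ty p) ζ e' cr0 d' n' ∧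
        Md (subTy ty β) (subP δ ty p) ν' crl Fl.n ζ (sub δ ty true p β z))

/-- the invariant -/
def R06_Inv (N : ℕ) (δ : Fin 3) (R0 : ℝ) (ty : Ty) (p : Fin 3) (z : Stk) (e ν cr : ℝ) (d n : ℕ) :
    Prop :=
  (2 + (d : ℝ) ≤ R0 + 3072 * (e + ν ^ 2) + cr + (n + 1) / MM ^ (N + 1)) ∨
  (ty = Ty.F ∧ ∃ β, rb ty true (posn δ ty p) z = some β ∧
    (Vz (DD ty true (posn δ ty p) z) + 2) / MM + d ≤
      R0 + 3072 * (e + ν ^ 2) + cr + (n + 1) / MM ^ (N + 1)) ∨
  R06_b N δ R0 ty p z e ν cr d n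

theorem R06_concl {N : ℕ} (IH : ∀ (δ : Fin 3), δ ≠ 0 → ∀ (ty0 : Ty) (p0 : Fin 3) (z0 : Stk)
    (ty : Ty) (p : Fin 3) (z : Stk) (e ν cr : ℝ) (d n : ℕ),
    Tr δ ty0 p0 z0 ty p z e ν cr d n →
    UU N true δ ty p z + d ≤
      UU N false δ ty0 p0 z0 + 3072 * (e + ν ^ 2) + cr + (n + 1) / MM ^ N)
    {δ : Fin 3} (hδ : δ ≠ 0) {R0 : ℝ} {ty : Ty} {p : Fin 3} {z : Stk} {e ν cr : ℝ} {d n : ℕ}
    (h : R06_Inv N δ R0 ty p z e ν cr d n) :
    UU (N + 1) true δ ty p z + d ≤ R0 + 3072 * (e + ν ^ 2) + cr + (n + 1) / MM ^ (N + 1) := by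
  have hM := R06_MM_pos
  rcases h with h | ⟨-, β, hβ, h⟩ | h
  · have := UU_le (N + 1) true δ ty p z
    linarith
  · have := R06_UU_le_some (N := N) hβ
    linarith
  · obtain ⟨β, tyr, pr, zr, βr, Er, crr, dr, nr, e', ν', cr', d', n', h1, h2, h3, h4, h5, h6, h7,
      h8, h9, h10⟩ := h
    have hδ' : -δ ≠ 0 := neg_ne_zero.mpr hδ
    have hI := IH (-δ) hδ' _ _ _ _ _ _ _ _ _ _ _ h7
    have hEn : e' + ν' ^ 2 ≤ 2 * lam ^ 2 * (e + ν ^ 2 - Er) := by
      rcases hty : ty with _ | _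
      · have := (h10 hty).1
        nlinarith [sq_nonneg ν']
      · exact h9 hty
    have he' : 0 ≤ e' + ν' ^ 2 := by
      have := (R06_Tr_basic h7).1
      positivity
    have hl : (2:ℝ) * lam ^ 2 ≤ MM := by unfold lam MM; norm_num
    have hl0 : (0:ℝ) < 2 * lam ^ 2 := by unfold lam; norm_num
    have hEs : 3072 * (e' + ν' ^ 2) / MM ≤ 3072 * (e + ν ^ 2 - Er) := by
      rw [div_le_iff₀ hM]
      have h11 : 0 ≤ 2 * lam ^ 2 * (e + ν ^ 2 - Er) := he'.trans hEn
      have h12 : 0 ≤ e + ν ^ 2 - Er := nonneg_of_mul_nonneg_right h11 hl0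
      have h13 : 2 * lam ^ 2 * (e + ν ^ 2 - Er) ≤ MM * (e + ν ^ 2 - Er) :=
        mul_le_mul_of_nonneg_right hl h12
      linarith
    rw [R06_UU_some h1 h2]
    rw [R06_UU_some h3 h4] at h5
    set A := UU N true (-δ) (subTy ty β) (subP δ ty p) (sub δ ty true p β z)
    set B := UU N false (-δ) (subTy tyr βr) (subP δ tyr pr) (sub δ tyr false pr βr zr)
    set V := Vz (DD ty true (posn δ ty p) z)
    set Vr := Vz (DD tyr false (posn δ tyr pr) zr)
    have e1 : (V + A) / MM ≤ (Vr + B) / MM + (cr - crr) - ((d:ℝ) - dr) + 3072 * (e' + ν' ^ 2) / MM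
        + (n' + 1) / MM ^ (N + 1) := by
      have e2 : (Vr + B) / MM + (cr - crr) - ((d:ℝ) - dr) + 3072 * (e' + ν' ^ 2) / MM
        + (n' + 1) / MM ^ (N + 1) = (Vr + B + MM * (cr - crr) - MM * ((d:ℝ) - dr) +
          3072 * (e' + ν' ^ 2) + (n' + 1) / MM ^ N) / MM := by
        field_simp
        ring
      rw [e2]
      apply div_le_div_of_nonneg_right _ hM.le
      linarith
    have e3 : ((n':ℝ) + 1) / MM ^ (N + 1) + nr / MM ^ (N + 1) ≤ (n + 1) / MM ^ (N + 1) := by
      rw [← add_div]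
      apply div_le_div_of_nonneg_right _ (by positivity)
      have : ((n' + nr : ℕ) : ℝ) ≤ n := by exact_mod_cast h6
      push_cast at this
      linarith
    linarith

theorem R06_start {N : ℕ} {δ : Fin 3} (hδ : δ ≠ 0) {R0 : ℝ} {ty : Ty} {p : Fin 3} {z1 z2 : Stk}
    {E0 cr0 ν1 cr1 : ℝ} {d0 n0 n : ℕ} {f : Fl} (hn : n0 ≤ n)
    (_hE0 : 0 ≤ E0) (hd : UU (N + 1) false δ ty p z1 + d0 ≤ R0 + 3072 * E0 + cr0 + n0 / MM ^ (N + 1))
    (h : Md ty p ν1 cr1 f z1 z2) :
    R06_Inv N δ R0 ty p z2 E0 ν1 (cr0 + cr1) (d0 + f.deb) n := by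
  have hM := R06_MM_pos
  have hUn := UU_nonneg (N + 1) false δ ty p z1
  obtain ⟨hν0, hcr1⟩ := R06_Md_cr h
  have hdb := R06_deb_le f
  have hnn : (n0:ℝ) / MM ^ (N + 1) ≤ (n + 1) / MM ^ (N + 1) := by
    apply div_le_div_of_nonneg_right _ (by positivity)
    have : (n0:ℝ) ≤ n := by exact_mod_cast hn
    linarith
  by_cases hν : ν1 < 1/32
  · rcases hrb : rb ty false (posn δ ty p) z1 with _ | β
    · left
      have hdf := R06_nodebit h hν hrb
      rw [R06_UU_none hrb] at hd
      rw [hdf]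
      have : 0 ≤ ν1 ^ 2 := sq_nonneg _
      simp only [add_zero]
      linarith
    · obtain ⟨m1, m2, m3⟩ := mod_step hδ h hν hrb
      by_cases hbr : broken ty false (posn δ ty p) β z1
      · right; left
        refine ⟨hbr.1, β, m1, ?_⟩
        rw [R06_UU_broken hrb hbr] at hd
        have e1 : (Vz (DD ty true (posn δ ty p) z2) + 2) / MM + f.deb ≤
            (Vz (DD ty false (posn δ ty p) z1) + 2) / MM + cr1 := by
          rw [div_add' _ _ _ hM.ne', div_add' _ _ _ hM.ne']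
          apply div_le_div_of_nonneg_right _ hM.le
          linarith
        have : 0 ≤ ν1 ^ 2 := sq_nonneg _
        push_cast
        linarith
      · right; right
        obtain ⟨m4, cr', m5, m6⟩ := m3 hbr
        refine ⟨β, ty, p, z1, β, E0, cr0, d0, n0, 0, lam * ν1, cr', 0, 0, m1, m4, hrb, hbr, hd, ?_, ?_,
          ?_, ?_, ?_⟩
        · omega
        · exact Tr.base (lam * ν1) cr' Fl.n _ m5
        · push_cast
          linarith
        · intro _
          have : 0 ≤ lam ^ 2 * ν1 ^ 2 := by positivity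
          nlinarith
        · intro _
          refine ⟨?_, sub δ ty false p β z1, 0, cr', by ring, R06_TrP_start _ _ _ _, m5⟩
          apply le_of_eq
          ring
  · left
    have : (1/32:ℝ) ^ 2 ≤ ν1 ^ 2 := by
      apply pow_le_pow_left₀ (by norm_num)
      linarith
    push_cast
    nlinarith

/-- TARGET -/
theorem main_ineq (N : ℕ) : ∀ (δ : Fin 3), δ ≠ 0 → ∀ (ty0 : Ty) (p0 : Fin 3) (z0 : Stk)
    (ty : Ty) (p : Fin 3) (z : Stk) (e ν cr : ℝ) (d n : ℕ),
    Tr δ ty0 p0 z0 ty p z e ν cr d n →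
    UU N true δ ty p z + d ≤
      UU N false δ ty0 p0 z0 + 3072 * (e + ν ^ 2) + cr + (n + 1) / MM ^ N := by
  induction N with
  | zero =>
    intro δ hδ ty0 p0 z0 ty p z e ν cr d n h
    obtain ⟨h1, h2, h3⟩ := R06_Tr_basic h
    have e1 : UU 0 true δ ty p z = 2 := rfl
    have e2 : UU 0 false δ ty0 p0 z0 = 2 := rfl
    rw [e1, e2, pow_zero, div_one]
    have : 0 ≤ ν ^ 2 := sq_nonneg _
    nlinarith
  | succ N IH =>
    intro δ hδ ty0 p0 z0 ty p z e ν cr d n h
    have hM := R06_MM_pos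
    have hinv : R06_Inv N δ (UU (N + 1) false δ ty0 p0 z0) ty p z e ν cr d n := by
      induction h with
      | base ν cr f z h =>
        have := R06_start (N := N) hδ (R0 := UU (N + 1) false δ ty0 p0 z0) (E0 := 0) (cr0 := 0)
          (d0 := 0) (n0 := 0) (n := 0) le_rfl le_rfl (by simp) h
        simpa using this
      | step ty p z e ν cr d n h z1 z2 h1 ν1 cr1 f h2 ih =>
        have hc := R06_concl IH hδ ih
        have hUt := UU_nonneg (N + 1) true δ ty p z
        obtain ⟨b1, b2, b3⟩ := R06_Tr_basic h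
        have hE0 : 0 ≤ e + ν ^ 2 := by positivity
        have hcast : ((n + 1 : ℕ) : ℝ) / MM ^ (N + 1) = ((n : ℝ) + 1) / MM ^ (N + 1) := by
          push_cast; rfl
        rcases ih with ih | ⟨hF, β, hβ, ih⟩ | ih
        · apply R06_start hδ (le_refl (n + 1)) hE0 _ h2
          have := UU_le (N + 1) false δ ty.other (p + δ) z1
          rw [hcast]
          linarith
        · subst hF
          obtain ⟨f1, f2, -⟩ := ftick hδ hβ h1
          apply R06_start hδ (le_refl (n + 1)) hE0 _ h2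
          have f3 : UU (N + 1) false δ Ty.E (p + δ) z1 ≤ _ := R06_UU_le_some (N := N) f1
          rw [f2] at f3
          rw [hcast]
          change UU (N + 1) false δ Ty.E (p + δ) z1 + (d:ℝ) ≤ _
          linarith
        · by_cases hν : ν1 < 1/32
          swap
          · left
            obtain ⟨hν0, hcr1⟩ := R06_Md_cr h2
            have hdb := R06_deb_le f
            have h5 : (1/32:ℝ) ^ 2 ≤ ν1 ^ 2 := by
              apply pow_le_pow_left₀ (by norm_num)
              linarith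
            have h6 : ((n:ℝ) + 1) / MM ^ (N + 1) ≤ (((n + 1 : ℕ) : ℝ) + 1) / MM ^ (N + 1) := by
              apply div_le_div_of_nonneg_right _ (by positivity)
              push_cast
              linarith
            push_cast at h6 ⊢
            nlinarith
          · right; right
            obtain ⟨β, tyr, pr, zr, βr, Er, crr, dr, nr, e', ν', cr', d', n', g1, g2, g3, g4, g5, g6,
              g7, g8, g9, g10⟩ := ih
            cases ty with
            | E =>
              obtain ⟨t1, t2, t3, t4, crt, dbt, t5, t6⟩ := etick hδ g1 h1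
              obtain ⟨g11, ζ, c0, cl, hcc, g12, g13⟩ := g10 rfl
              obtain ⟨m1, m2, m3⟩ := mod_step (ty := Ty.F) hδ h2 hν t1
              obtain ⟨m4, crm, m5, m6⟩ := m3 t2
              rw [t3, t4] at m5
              have k1 := Md_comp g13 t5 (Or.inl rfl)
              have k2 := Md_comp k1 m5 (Or.inr rfl)
              have k3 := g12 _ _ _ _ k2
              refine ⟨1 - β, tyr, pr, zr, βr, Er, crr, dr, nr, e', ν' + 0 + lam * ν1,
                c0 + (cl + crt + crm), d' + dbt.deb, n', m1, m4, g3, g4, g5, by omega, ?_, ?_, ?_, ?_⟩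
              · change Tr (-δ) _ _ _ (subTy Ty.F (1 - β)) (subP δ Ty.F (p + δ)) _ _ _ _ _ _
                rw [t3, t4]
                rw [R06_n_or, R06_or_n] at k3
                exact k3
              · change Vz (DD Ty.F true (posn δ Ty.F (p + δ)) z2) + _ + _ ≤ _
                push_cast
                linarith
              · intro _
                have : (ν' + 0 + lam * ν1) ^ 2 ≤ 2 * ν' ^ 2 + 2 * lam ^ 2 * ν1 ^ 2 := by
                  nlinarith [sq_nonneg (ν' - lam * ν1)]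
                linarith
              · intro hh
                exact absurd hh (by decide)
            | F =>
              obtain ⟨t1, t2, t3⟩ := ftick hδ g1 h1
              obtain ⟨t4, t5, ζ, t6, t7⟩ := t3 g2
              obtain ⟨m1, m2, m3⟩ := mod_step (ty := Ty.E) hδ h2 hν t1
              obtain ⟨m4, crm, m5, m6⟩ := m3 (fun hb => by
                have := hb.1
                exact absurd this (by decide))
              rw [t4, t5] at m5
              have k1 := Md_comp t7 m5 (Or.inl rfl)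
              have k0 := R06_TrP_tick g7 t6
              have k3 := k0 _ _ _ _ k1
              refine ⟨β, tyr, pr, zr, βr, Er, crr, dr, nr, e' + ν' ^ 2, 0 + lam * ν1,
                cr' + (0 + crm), d', n' + 1, m1, m4, g3, g4, g5, by omega, ?_, ?_, ?_, ?_⟩
              · change Tr (-δ) _ _ _ (subTy Ty.E β) (subP δ Ty.E (p + δ)) _ _ _ _ _ _
                rw [t4, t5]
                exact k3
              · rw [t2] at m6
                change Vz (DD Ty.E true (posn δ Ty.E (p + δ)) z2) + _ + _ ≤ _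
                push_cast
                linarith
              · intro hh
                exact absurd hh (by decide)
              · intro _
                have hg9 := g9 rfl
                refine ⟨?_, ζ, cr', 0 + crm, rfl, ?_, ?_⟩
                · nlinarith
                · change R06_TrP (-δ) _ _ _ (subTy Ty.E β) (subP δ Ty.E (p + δ)) _ _ _ _ _
                  rw [t4, t5]
                  exact k0
                · change Md (subTy Ty.E β) (subP δ Ty.E (p + δ)) _ _ _ _ _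
                  rw [t4, t5]
                  exact k1
    exact R06_concl IH hδ hinv


end Pool.Agent.Y203.QC
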